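import Pool.Agent.MP_a88b1d_nt.H93.Lib
import Pool.Agent.MP_a88b1d_nt.H93R.BAER
import Pool.Agent.MP_a88b1d_nt.H93R.DEG
import Pool.Agent.MP_a88b1d_nt.H93R.DISC
import Pool.Agent.MP_a88b1d_nt.H93R.DIV
import Pool.Agent.MP_a88b1d_nt.H93R.DSIDE
import Pool.Agent.MP_a88b1d_nt.H93R.EIS
import Pool.Agent.MP_a88b1d_nt.H93R.EXP
import Pool.Agent.MP_a88b1d_nt.H93R.FINAL
import Pool.Agent.MP_a88b1d_nt.H93R.FINS
import Pool.Agent.MP_a88b1d_nt.H93R.FY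
import Pool.Agent.MP_a88b1d_nt.H93R.GAL
import Pool.Agent.MP_a88b1d_nt.H93R.GR
import Pool.Agent.MP_a88b1d_nt.H93R.GROW
import Pool.Agent.MP_a88b1d_nt.H93R.HD1
import Pool.Agent.MP_a88b1d_nt.H93R.HD2
import Pool.Agent.MP_a88b1d_nt.H93R.HD3
import Pool.Agent.MP_a88b1d_nt.H93R.HOL
import Pool.Agent.MP_a88b1d_nt.H93R.LOWA
import Pool.Agent.MP_a88b1d_nt.H93R.MAX
import Pool.Agent.MP_a88b1d_nt.H93R.MFA
import Pool.Agent.MP_a88b1d_nt.H93R.MOBN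
import Pool.Agent.MP_a88b1d_nt.H93R.NEW
import Pool.Agent.MP_a88b1d_nt.H93R.NF
import Pool.Agent.MP_a88b1d_nt.H93R.NORM
import Pool.Agent.MP_a88b1d_nt.H93R.OLD
import Pool.Agent.MP_a88b1d_nt.H93R.POT
import Pool.Agent.MP_a88b1d_nt.H93R.PROF
import Pool.Agent.MP_a88b1d_nt.H93R.PS
import Pool.Agent.MP_a88b1d_nt.H93R.PULLA
import Pool.Agent.MP_a88b1d_nt.H93R.PULLC
import Pool.Agent.MP_a88b1d_nt.H93R.RAY
import Pool.Agent.MP_a88b1d_nt.H93R.RED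
import Pool.Agent.MP_a88b1d_nt.H93R.SIGE
import Pool.Agent.MP_a88b1d_nt.H93R.SIGV
import Pool.Agent.MP_a88b1d_nt.H93R.SUB
import Pool.Agent.MP_a88b1d_nt.H93R.THA
import Pool.Agent.MP_a88b1d_nt.H93R.THC
import Pool.Agent.MP_a88b1d_nt.H93R.THT
import Pool.Agent.MP_a88b1d_nt.H93R.UN
import Pool.Agent.MP_a88b1d_nt.H93R.UNI
import Pool.Agent.MP_a88b1d_nt.H93R.WF
import Pool.Agent.MP_a88b1d_nt.H42.Main
import Pool.Agent.MP_a88b1d_nt.H14.Gendg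
import Pool.Agent.MP_a88b1d_nt.H17.Eqa
import Pool.Agent.MP_a88b1d_nt.H18.Cob
import Pool.Agent.MP_a88b1d_nt.H35.Emb
import Pool.Agent.MP_a88b1d_nt.H47.Eqb
import Pool.Agent.MP_a88b1d_nt.H64.Eq1
import Pool.Agent.MP_a88b1d_nt.H73.Pt
import Pool.Agent.MP_a88b1d_nt.H85.Irr
import Pool.Agent.MP_a88b1d_nt.H92.Dg
import Pool.Agent.MP_a88b1d_nt.H97.Dcomb
import Pool.Agent.MP_a88b1d_nt.H99.Sn

/-! All rows together. -/

namespace Pool.Agent.MP_a88b1d_nt.P2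

open Pool.Agent.MP_a88b1d_nt.St2
open Pool.Agent.MP_a88b1d_nt.H42 (A pp qq Quat)

theorem kernelFails {C : Type} [NontriviallyNormedField C] [IsUltrametricDist C] [CompleteSpace C]
    [IsAlgClosed C] [Algebra (ZMod 2) C] [DecidableEq C] (T : C) (hT : 1 < ‖T‖) (hd : Dns T) :
    KernelFails T (pp * qq) (Quat A) := by
  have hi : H42.IRR := H85.irr
  have L := lib T hT
  have hq : H42.PT := H73.pt hi
  have hn : H42.GN T := H42.gn_of T (H64.rel_ex T hT L.pa L.tree L.pm hq)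
    (H64.eq1 T hT L.pa L.tree L.pm hq) (H17.eqa T hT L.pa L.tree L.pm hq)
    (H47.eqb T hT hi H14.dg L.pa L.tree L.pm hq) (H18.cob T hT H14.gen L.pa L.tree L.pm hq)
  exact wire RFY.row RHOL.row RUNI.row RMAX.row RDIV.row RLOWA.row RDIV.row2 RWF.row RNF.row
    RHD1.row RHD2.row RMOBN.row RHD3.row REXP.row RGR.row1 RGR.row2 RGROW.row1 RGROW.row2
    RBAER.row1 RGROW.row3 RDISC.row RRED.row RRAY.row RMFA.row RNORM.row RTHT.row RTHA.row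
    RTHC.row RTHT.row2 REIS.row RPS.row RFINS.row RPROF.row RPOT.row RRAY.row2 RDEG.row RDEG.row2
    RUN.row RPULLA.row RPULLC.row RGAL.row RSIGV.row RSIGE.row RSIGE.row2 ROLD.row RNEW.row
    RDSIDE.row RFINAL.row RFINAL.row2 RSUB.row T hT hn (H35.emb T hT L.lt L.tree)
    (H99.sn T hT L.lt)
    (H99.trans T L.pa L.tree) (H92.dg59 T hT L.tree)
    (H42.gd_of T L.tree (H97.dcomb H8.ta L.pa) (H92.dg59 T hT L.tree)) hd

end Pool.Agent.MP_a88b1d_nt.P2
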