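import Pool.Agent.MP_a88b1d_nt.H93.Spec3
import Pool.Agent.MP_a88b1d_nt.H22.Pa
import Pool.Agent.MP_a88b1d_nt.H50.Tree
import Pool.Agent.MP_a88b1d_nt.H8.Ta
import Pool.Agent.MP_a88b1d_nt.H92.Per
import Pool.Agent.MP_a88b1d_nt.H94.Pm

/-! The facts of the earlier library, and the wiring of the rows. -/

open Polynomial

namespace Pool.Agent.MP_a88b1d_nt.P2

open Pool.Agent.MP_a88b1d_nt.St2
open Pool.Agent.MP_a88b1d_nt.H42 (A M2 MK nrm dd st rG r0 vv QQ den Orth pp qq Quat)

variable {C : Type} [NontriviallyNormedField C]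

theorem inE {T : C} (g : MK T) : H92.InE (H42.Finf T) g.1 := ⟨g.2.1, g.2.2⟩

theorem adjMK {T : C} (g : MK T) : H92.InE (H42.Finf T) g.1.adjugate := by
  refine ⟨fun i j => ?_, ?_⟩
  · have h := g.2.1
    rw [Matrix.adjugate_fin_two]
    fin_cases i <;> fin_cases j <;> simp [h]
  · have h := g.2.2
    rw [Matrix.det_fin_two] at h
    rw [Matrix.adjugate_fin_two, Matrix.det_fin_two]
    simp only [Matrix.of_apply, Matrix.cons_val', Matrix.cons_val_zero, Matrix.cons_val_one,
      Matrix.cons_val_fin_one]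
    intro h0
    exact h (by linear_combination h0)

theorem mb (T : C) : MB T where
  den_ne := fun g _ hz => (inE g).den hz
  om := fun g _ hz => (inE g).mob_notMem hz
  one := H92.mob_one
  mul := fun g h _ hz => H92.mob_mul (inE g) (inE h) hz
  den_mul := fun g h z hz => by
    have h1 := (inE h).den hz
    unfold den mob
    simp only [Submonoid.coe_mul, Matrix.mul_apply, Fin.sum_univ_two]
    field_simp
    ring
  sub := fun g h _ hz _ hw => H92.mob_sub_mob g h hz hw
  sub' := fun g _ hz _ hw => H92.mob_sub (inE g) hz hw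
  qq := fun g z w hw => by
    have h1 := (inE g).den hw
    unfold QQ den mob
    field_simp
  inj := fun g _ hz _ hw h => H92.mob_inj (inE g) hz hw h
  surj := fun g z hz => by
    refine ⟨H42.mob g.1.adjugate z, (adjMK g).mob_notMem hz, ?_⟩
    have h := H92.mob_mul (inE g) (adjMK g) hz
    rw [mob_eq, ← h, Matrix.mul_adjugate]
    have h2 := g.2.2
    unfold H42.mob
    simp [h2]

variable [Algebra (ZMod 2) C] [IsUltrametricDist C]

omit [IsUltrametricDist C] in
theorem gen_of {z w : C} (h : Orth z w) : Gen z ∧ Gen w := by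
  have h1 := h.2.2 !![0, 1; 0, 1] (fun i j => by fin_cases i <;> fin_cases j <;> simp)
    (fun h0 => by simpa using congrFun (congrFun h0 0) 1)
  have h2 := h.2.2 !![1, 1; 0, 0] (fun i j => by fin_cases i <;> fin_cases j <;> simp)
    (fun h0 => by simpa using congrFun (congrFun h0 0) 1)
  refine ⟨⟨h.1, by simpa [QQ] using h1⟩, h.2.1, ?_⟩
  have e : QQ !![1, 1; 0, 0] z w = w - 1 := by
    have := H42.add_self_C w
    simp only [QQ, Matrix.of_apply, Matrix.cons_val', Matrix.cons_val_zero, Matrix.cons_val_one,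
      Matrix.cons_val_fin_one]
    linear_combination -this
  rwa [e] at h2

theorem lib [CompleteSpace C] [IsAlgClosed C] (T : C) (hT : 1 < ‖T‖) : LIB T := by
  have hl : H42.LT T := H92.lt T hT
  have ht : H42.TREE T := H50.tree T hT hl
  have hm : H42.PM T := H94.pm_api T hT hl ht
  refine ⟨hl, ht, H8.ta _ _ _ ht.tree, H22.pa H8.ta, hm, H92.orth T hT, H92.per_ok T hT ht, mb T,
    fun _ _ => gen_of, H50.st0 hT, H50.st1 hT, H50.st2 hT, fun i => ?_, fun _ => rfl⟩
  unfold vv
  rw [hm.val _ (by simp [Matrix.det_fin_two])]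
  ext a b
  fin_cases a <;> fin_cases b <;> simp [H42.evM]

theorem wire (r1 : OfFY) (r2 : OfHOL) (r3 : OfUNI) (r4 : OfMAX) (r5 : OfDIV) (r6 : OfLOWA)
    (r7 : OfLOW) (r8 : OfWF) (r9 : OfNF) (r10 : OfHD1) (r11 : OfHD2) (r12 : OfMOBN) (r13 : OfHD3)
    (r14 : OfEXP) (g1 : GR1) (g2 : GR2) (g3 : GROW) (g4 : MAXP) (g5 : BAER) (g6 : LIN)
    (r15 : OfDISC) (r16 : OfRED) (r17 : OfRAY) (r18 : OfMFA) (r19 : OfNORM) (r20 : OfTHT)
    (r21 : OfTHA) (r22 : OfTHC) (r23 : OfTH) (r24 : OfEIS) (r25 : OfPS) (r26 : OfFINS)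
    (r27 : OfPROF) (r28 : OfPOT) (r29 : OfPOTF) (r30 : OfDEG) (r31 : OfJAC) (r32 : OfUN)
    (r33 : OfPULLA) (r34 : OfPULLC) (r35 : OfGAL) (r36 : OfSIGV) (r37 : OfSIGE) (r38 : OfSIG)
    (r39 : OfOLD) (r40 : OfNEW) (r41 : OfDSIDE) (r42 : OfTRANSP) (r43 : OfFINAL)
    (r44 : OfSUB)
    [CompleteSpace C] [IsAlgClosed C] [DecidableEq C] (T : C) (hT : 1 < ‖T‖)
    (gn : H42.GN T) (emb : H42.EMB T) (sn : H42.SN T) (tr : H42.TRANS T) (dg : H42.DG59 T)
    (gd : H42.GD T) (hd : Dns T) : KernelFails T (pp * qq) (Quat A) := by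
  have L := lib T hT
  have fy := r1 C T hT L
  have hol := r2 C T hT L fy
  have uni := r3 C T hT L fy hol
  have mx := r4 C T hT L fy
  have dv := r5 C T hT L fy hol mx
  have low := r7 C T hT L fy mx (r6 C T hT L fy mx)
  have wf := r8 C T hT L fy hol uni dv low
  have nf := r9 C T hT L fy uni
  have h1 := r10 C T hT L fy hol uni
  have h2 := r11 C T hT L fy hol uni wf h1
  have mo := r12 C T hT L fy
  have h3 := r13 C T hT L fy hol uni h1 h2 mo
  have ep := r14 C T hT L fy
  have di := r15 C T hT L fy mo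
  have re := r16 C T hT L fy mo
  have ra := r17 C T hT L re
  have mf := r18 C T hT L fy uni h1 h3 mo ep di
  have no := r19 C T hT L fy hol uni h1 h2 h3 mo ep di
  have tt := r20 C T hT L fy hol mo di
  have ta := r21 C T hT L fy uni h1 h2 mo di tt
  have tc := r22 C T hT L fy mo ep di tt ta
  have th := r23 C T hT L mo di mf ta tc
  have ei := r24 C T hT L fy hol di
  have ps := r25 C T hT L fy hol h2 mo di
  have fi := r26 C T hT L fy h1 h3 mo di
  have po := r28 C T hT L fy nf (r27 C T hT L fy)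
  have pf := r29 C T hT L g1 fy di ra po
  have de := r30 C T hT L mo di mf no th pf
  have ja := r31 C T hT L fy h1 h2 h3 mo di re ei ps fi de
  have un := r32 C T hT L g2 g4 fy hol uni nf mo di re no po pf
  have pa := r33 C T hT L fy h1 h3 mo di re
  have pc := r34 C T hT L fy mo ep di re pa
  have ga := r35 C T hT L hol h1 mo ep di
  have si := r38 C T hT L fy (r36 C T hT L fy) (r37 C T hT L fy)
  have ol := r39 C T hT L g5 fy mo di mf th ja pa pc
  exact r43 C T hT L emb di ga si (r40 C T hT L g6 gn di mf th un ga ol)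
    (r41 C T hT L g3 mo di mf th ja un ga) (r42 C T hT L emb sn tr dg gd di) mf ol
    (r44 C T hT L fy h1 h2 h3 mo ep di re de) hd

end Pool.Agent.MP_a88b1d_nt.P2
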