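import Mathlib

/-!
Jacobians of Drinfeld modular curves and of Drinfeld-Stuhler curves over `F = F_2(T)` as groups of
degree zero divisor classes.  `A = F_2[T]` is `(ZMod 2)[X]`, `C` is the completed algebraic closure
of `F_∞`, and `Ω = C - F_∞` is Drinfeld's half-plane.  The curve of a group `Γ` of matrices is
`Γ \ (Ω ∪ cusps)`.  Here `q = 2`: the groups contain no scalar matrix except `1`, and the
stabiliser of a cusp consists of translations.
-/

open Polynomial Quaternion OnePoint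

noncomputable section

namespace Pool.Agent.MP_a88b1d_nt.St2

/-- The elements of a quaternion algebra over `F` that lie in `A + A i + A j + A i j`. -/
def Intg {a b c : RatFunc (ZMod 2)} (y : ℍ[RatFunc (ZMod 2), a, b, c]) : Prop :=
  ∀ t ∈ [y.re, y.imI, y.imJ, y.imK], t ∈ Set.range (algebraMap (ZMod 2)[X] (RatFunc (ZMod 2)))

/-- The congruence subgroup `Γ_0(m)` of `GL_2(A)`. -/
def Gam0 (m : (ZMod 2)[X]) : Subgroup (GL (Fin 2) (ZMod 2)[X]) where
  carrier := {g | m ∣ g.1 1 0}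
  one_mem' := by simp
  mul_mem' := by
    intro g h hg hh
    simp only [Set.mem_ofPred_eq, Units.val_mul, Matrix.mul_apply, Fin.sum_univ_two] at *
    exact dvd_add (hg.mul_right _) (hh.mul_left _)
  inv_mem' := by
    intro g hg
    simp only [Set.mem_ofPred_eq] at *
    rw [Matrix.coe_units_inv, Matrix.inv_def, Matrix.adjugate_fin_two]
    simpa using hg.mul_left (Ring.inverse g.1.det)

variable {C : Type} [NontriviallyNormedField C]

/-- `F_∞`: the closure of `F_2(T)` in `C`. -/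
def Finf (T : C) : Subfield C := (Subfield.closure {T}).topologicalClosure

/-- Fractional linear transformations. -/
def mob (g : Matrix (Fin 2) (Fin 2) C) (z : C) : C := (g 0 0 * z + g 0 1) / (g 1 0 * z + g 1 1)

/-- The affinoids `Ω_n` that exhaust `Ω`: `|z| ≤ |T|^n` and distance to `F_∞` at least
`|T|^(-n)`. -/
def Om (T : C) (n : ℕ) : Set C := {z | ‖z‖ ≤ ‖T‖ ^ n ∧ ∀ x ∈ Finf T, 1 ≤ ‖T‖ ^ n * ‖z - x‖}

/-- Holomorphic functions on an affinoid `S`: uniform limits of rational functions without poles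
in `S`. -/
def HolOn (S : Set C) (g : C → C) : Prop :=
  ∀ ε : ℝ, 0 < ε → ∃ P Q : C[X], ∀ z ∈ S, Q.eval z ≠ 0 ∧ ‖g z - P.eval z / Q.eval z‖ ≤ ε

/-- `f` is a meromorphic function on `Ω` of order `e z` at `z`: on each `Ω_n`, off a finite set
`s` that carries the orders, `f` is `∏ (z - a) ^ e a` times a unit `u` of the ring of holomorphic
functions on `Ω_n`. -/
def HasDiv (T : C) (f : C → C) (e : C → ℤ) : Prop :=
  ∀ n : ℕ, ∃ (s : Finset C) (u : C → C),
    (HolOn (Om T n) u ∧ HolOn (Om T n) u⁻¹ ∧ ∀ z ∈ Om T n, u z ≠ 0) ∧ (∀ a ∈ s, a ∈ Om T n) ∧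
      ∀ z ∈ Om T n, z ∉ s → e z = 0 ∧ f z = u z * ∏ a ∈ s, (z - a) ^ e a

/-- The exponential function `e_Λ` of a lattice `Λ`; `1 / e_Λ` is the local parameter at a cusp
whose stabiliser is the group of translations by `Λ`. -/
def ex (Λ : Set C) (z : C) : C := z * ∏' b : {b // b ∈ Λ ∧ b ≠ 0}, (1 - z / b.1)

/-- `f` has order `k` in the local parameter `1 / e_Λ` at infinity: far from `F_∞`, the size of
`f * e_Λ ^ k` is bounded above and below. -/
def CuspOrd (T : C) (Λ : Set C) (f : C → C) (k : ℤ) : Prop :=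
  ∃ r c₁ c₂ : ℝ, 0 < c₁ ∧ ∀ z, (∀ x ∈ Finf T, r ≤ ‖z - x‖) →
    c₁ ≤ ‖f z‖ * ‖ex Λ z‖ ^ k ∧ ‖f z‖ * ‖ex Λ z‖ ^ k ≤ c₂

section
variable [DecidableEq C] (T : C) (Γ : Subgroup (GL (Fin 2) C)) (K : Set (GL (Fin 2) C))

/-- The points of `Ω` and the cusps `γ ∞`, `γ ∈ K`, in the projective line. -/
def Pts : Set (OnePoint C) := {x | (∃ z ∉ Finf T, x = (z : OnePoint C)) ∨ ∃ γ ∈ K, x = γ • ∞}

/-- Divisors of degree zero on the curve of `Γ`.  A point of the curve is an orbit, a divisor is a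
function on the projective line, and the divisor of a point is the indicator of its orbit. -/
def Div0 : AddSubgroup (OnePoint C → ℤ) :=
  AddSubgroup.closure {D | ∃ x ∈ Pts T K, ∃ y ∈ Pts T K,
    D = {t | ∃ g ∈ Γ, g • x = t}.indicator 1 - {t | ∃ g ∈ Γ, g • y = t}.indicator 1}

/-- `D` is the divisor of `f` on the curve of `Γ`: at `z ∈ Ω` the quotient map is ramified of order
the cardinality of the stabiliser, and at the cusp `γ ∞` the local parameter is `1 / e_Λ` for the
group `Λ` of translations in `γ⁻¹ Γ γ`. -/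
structure IsDiv (f : C → C) (D : OnePoint C → ℤ) : Prop where
  ord : HasDiv T f fun z => Nat.card (MulAction.stabilizer Γ (z : OnePoint C)) * D z
  cusp : ∀ γ ∈ K, CuspOrd T {b | γ * Matrix.GeneralLinearGroup.upperRightHom b * γ⁻¹ ∈ Γ}
    (fun z => f (mob γ.1 z)) (D (γ • ∞))
  off : ∀ x ∉ Pts T K, D x = 0

/-- Principal divisors: the divisors of the `Γ`-invariant meromorphic functions. -/
def Prin : AddSubgroup (OnePoint C → ℤ) :=
  AddSubgroup.closure {D | ∃ f : C → C,
    (∀ g ∈ Γ, ∀ z ∉ Finf T, f (mob g.1 z) = f z) ∧ IsDiv T Γ K f D}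

end

section
variable (T : C) {G : Type} [AddCommGroup G] (act : (C ≃+* C) → G → G)

/-- An isogeny between two groups of divisor classes, on `C`-points: a surjective homomorphism with
finite kernel that is defined over a finite extension `F_∞(S)`, that is, it commutes with the
isometric automorphisms of `C` over `F_∞(S)`, which act on divisors by `act`. -/
structure IsIsog {U V : AddSubgroup G} {U' : AddSubgroup U} {V' : AddSubgroup V}
    (ψ : U ⧸ U' →+ V ⧸ V') : Prop where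
  surj : Function.Surjective ψ
  fin : Finite ψ.ker
  gal : ∃ S : Finset C, (∀ x ∈ S, IsAlgebraic (Finf T) x) ∧ ∀ σ : C ≃+* C, (∀ x, ‖σ x‖ = ‖x‖) →
    (∀ x ∈ Finf T, σ x = x) → (∀ x ∈ S, σ x = x) → ∀ (D D' : U) (E E' : V),
      D'.1 = act σ D.1 → E'.1 = act σ E.1 → ψ (QuotientAddGroup.mk D) = QuotientAddGroup.mk E →
        ψ (QuotientAddGroup.mk D') = QuotientAddGroup.mk E'

/-- `U' ⊆ U`, `V' ⊆ V`, and every isogeny from `U / U'` to `V / V'` has a kernel of order divisible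
by 3, not isomorphic to `Z/65 × Z/5`. -/
structure BadKernels (U U' V V' : AddSubgroup G) : Prop where
  le : U' ≤ U ∧ V' ≤ V
  ker : ∀ ψ : U ⧸ U'.addSubgroupOf U →+ V ⧸ V'.addSubgroupOf V, IsIsog T act ψ →
    3 ∣ Nat.card ψ.ker ∧ IsEmpty (ψ.ker ≃+ ZMod 65 × ZMod 5)

end

variable [Algebra (ZMod 2) C]

/-- `GL_2(A)` as matrices over `C`. -/
def ev (T : C) : GL (Fin 2) (ZMod 2)[X] →* GL (Fin 2) C :=
  Matrix.GeneralLinearGroup.map (aeval T : (ZMod 2)[X] →ₐ[ZMod 2] C).toRingHom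

/-- `ι` is an `A`-algebra map from `R` to `M_2(F_∞)`. -/
def Emb {R : Type} [Ring R] [Algebra (ZMod 2)[X] R] (T : C)
    (ι : R →+* Matrix (Fin 2) (Fin 2) C) : Prop :=
  (∀ f : (ZMod 2)[X], ι (algebraMap (ZMod 2)[X] R f) = Matrix.scalar (Fin 2) (aeval T f)) ∧
    ∀ x i j, ι x i j ∈ Finf T

variable [DecidableEq C]

/-- `D` is the pullback to `X_0(n)` of a divisor of degree zero on `X_0(m)` along a degeneracy map
`z ↦ d z`, `m d ∣ n`, `(m) ≠ (n)`; the ramification index at `x` is the index of the stabiliser of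
`x` in `Γ_0(n)` in its stabiliser in `δ⁻¹ Γ_0(m) δ`. -/
structure IsPull (T : C) (n : (ZMod 2)[X]) (D : OnePoint C → ℤ) : Prop where
  ex : ∃ (m d : (ZMod 2)[X]) (δ : GL (Fin 2) C) (D' : OnePoint C → ℤ),
    m * d ∣ n ∧ ¬ n ∣ m ∧ δ.1 = !![aeval T d, 0; 0, 1] ∧
      D' ∈ Div0 T ((Gam0 m).map (ev T)) (ev T).range ∧ ∀ x, D x =
        ((Gam0 n).map (ev T)).relIndex (((Gam0 m).map (ev T)).comap (MulAut.conj δ).toMonoidHom ⊓
          MulAction.stabilizer (GL (Fin 2) C) x) * D' (δ • x)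

/-- Old divisors on `X_0(n)`. -/
def Old (T : C) (n : (ZMod 2)[X]) : AddSubgroup (OnePoint C → ℤ) :=
  AddSubgroup.closure {D | IsPull T n D}

/-- For the level `n` and the order `R`: embeddings of `R` exist, and every isogeny from the new
quotient `J_0(n) / J_0(n)^old` to the Jacobian of the curve of the unit group of `R` has a bad
kernel. -/
structure KernelFails (T : C) (n : (ZMod 2)[X]) (R : Type) [Ring R] [Algebra (ZMod 2)[X] R] :
    Prop where
  emb : ∃ ι : R →+* Matrix (Fin 2) (Fin 2) C, Emb T ι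
  ker : ∀ ι : R →+* Matrix (Fin 2) (Fin 2) C, Emb T ι → ∀ Γ Δ : Subgroup (GL (Fin 2) C),
    Γ = (Gam0 n).map (ev T) → Δ = (Units.map ι.toMonoidHom).range →
      BadKernels T (fun σ (D : OnePoint C → ℤ) x => D (x.map σ.symm))
        (Div0 T Γ (ev T).range) (Prin T Γ (ev T).range ⊔ Old T n) (Div0 T Δ ∅) (Prin T Δ ∅)

end Pool.Agent.MP_a88b1d_nt.St2
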