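import Pool.Agent.MP_a88b1d_nt.H42.Spec
import Pool.Agent.MP_a88b1d_nt.H93.St2

/-!
Specification of the intermediate statements for the divisor class version.  Part 1: analysis on
the affinoids `Om T n`.  Every row proves one `Of...` statement.
-/

open Polynomial Quaternion OnePoint Filter Topology

noncomputable section

namespace Pool.Agent.MP_a88b1d_nt.P2

open Pool.Agent.MP_a88b1d_nt.St2
open Pool.Agent.MP_a88b1d_nt.H42 (A M2 MK nrm dd st rG r0 vv QQ den Orth Good Psi IsTree TreeAPI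
  Proper PsiAPI GramOK pp qq Quat)

variable {C : Type} [NontriviallyNormedField C]

theorem finf_eq (T : C) : Finf T = H42.Finf T := rfl

theorem mob_eq (g : M2 C) (z : C) : mob g z = H42.mob g z := rfl

theorem gam0_eq (m : A) : Gam0 m = H42.Gam0 m := rfl

/-- Generic units: the residue is not in `F_2`. -/
def Gen (z : C) : Prop := ‖z‖ = 1 ∧ ‖z - 1‖ = 1

def Far (T : C) (r : ℝ) (z : C) : Prop := ∀ x ∈ Finf T, r ≤ ‖z - x‖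

def UnitOn (S : Set C) (u : C → C) : Prop := HolOn S u ∧ HolOn S u⁻¹ ∧ ∀ z ∈ S, u z ≠ 0

def Loc (T : C) (n : ℕ) (f : C → C) (e : C → ℤ) : Prop :=
  ∃ (s : Finset C) (u : C → C), UnitOn (Om T n) u ∧ (∀ a ∈ s, a ∈ Om T n) ∧
    ∀ z ∈ Om T n, z ∉ s → e z = 0 ∧ f z = u z * ∏ a ∈ s, (z - a) ^ e a

theorem hasDiv_iff (T : C) (f : C → C) (e : C → ℤ) : HasDiv T f e ↔ ∀ n, Loc T n f e := Iff.rfl

def Ord (f : C → C) (z : C) (k : ℤ) : Prop :=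
  ∃ c : C, c ≠ 0 ∧ Tendsto (fun w => f w / (w - z) ^ k) (𝓝[≠] z) (𝓝 c)

/-- Isometric automorphisms over `F_∞`. -/
def Iso (T : C) (σ : C ≃+* C) : Prop := (∀ x, ‖σ x‖ = ‖x‖) ∧ ∀ x ∈ Finf T, σ x = x

variable [Algebra (ZMod 2) C]

/-- Moebius transformations on the half-plane. -/
structure MB (T : C) : Prop where
  den_ne : ∀ (g : MK T), ∀ z ∉ Finf T, den g.1 z ≠ 0
  om : ∀ (g : MK T), ∀ z ∉ Finf T, mob g.1 z ∉ Finf T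
  one : ∀ z : C, mob 1 z = z
  mul : ∀ (g h : MK T), ∀ z ∉ Finf T, mob (g * h).1 z = mob g.1 (mob h.1 z)
  den_mul : ∀ (g h : MK T), ∀ z ∉ Finf T, den (g * h).1 z = den g.1 (mob h.1 z) * den h.1 z
  sub : ∀ (g h : MK T), ∀ z ∉ Finf T, ∀ w ∉ Finf T,
    mob g.1 z - mob h.1 w = QQ (g.1.adjugate * h.1) z w / (den g.1 z * den h.1 w)
  sub' : ∀ (g : MK T), ∀ z ∉ Finf T, ∀ w ∉ Finf T,
    mob g.1 z - mob g.1 w = g.1.det * (z - w) / (den g.1 z * den g.1 w)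
  qq : ∀ (g : MK T) (z : C), ∀ w ∉ Finf T, QQ g.1 z w = den g.1 w * (z - mob g.1 w)
  inj : ∀ (g : MK T), ∀ z ∉ Finf T, ∀ w ∉ Finf T, mob g.1 z = mob g.1 w → z = w
  surj : ∀ (g : MK T), ∀ z ∉ Finf T, ∃ w ∉ Finf T, mob g.1 w = z

/-- The facts of the earlier library; `H93/Lib.lean` proves this. -/
structure LIB (T : C) : Prop where
  lt : H42.LT T
  tree : H42.TREE T
  api : TreeAPI (dd T) (st T)
  pa : H42.PA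
  pm : H42.PM T
  orth : H42.ORTH T
  per : H42.PER T
  mb : MB T
  gen : ∀ z w : C, Orth z w → Gen z ∧ Gen w
  st0 : (st T 0).1 = !![1, 0; 0, T]
  st1 : (st T 1).1 = !![1, T; 0, T]
  st2 : (st T 2).1 = !![T, 0; 0, 1]
  vv : ∀ i, (vv T i).1 = !![T ^ i, 0; 0, 1]
  rg : ∀ g, (rG T g).1 = (ev T g).1

/-- The common frame of all rows. -/
def All (P : ∀ (C : Type) [NontriviallyNormedField C] [Algebra (ZMod 2) C] [DecidableEq C],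
    C → Prop) : Prop :=
  ∀ (C : Type) [NontriviallyNormedField C] [IsUltrametricDist C] [CompleteSpace C] [IsAlgClosed C]
    [Algebra (ZMod 2) C] [DecidableEq C] (T : C), 1 < ‖T‖ → LIB T → P C T

/-! ## 1. The field `F_∞` and the affinoids -/

structure FY (T : C) : Prop where
  closed : IsClosed (Finf T : Set C)
  memT : T ∈ Finf T
  val : ∀ x ∈ Finf T, x ≠ 0 → ∃ n : ℤ, ‖x‖ = ‖T‖ ^ n
  split : ∀ x ∈ Finf T, ∀ j : ℤ, ‖x‖ ≤ ‖T‖ ^ j →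
    ‖x‖ ≤ ‖T‖ ^ (j - 1) ∨ ‖x - T ^ j‖ ≤ ‖T‖ ^ (j - 1)
  gen : ∀ z : C, Gen z → ∀ a ∈ Finf T, ∀ b ∈ Finf T, ‖a * z + b‖ = max ‖a‖ ‖b‖
  gen_om : ∀ z : C, Gen z → z ∈ Om T 0
  avoid : ∀ s : Finset C, ∃ z, Gen z ∧ ∀ a ∈ s, 1 ≤ ‖z - a‖
  near : ∀ z ∉ Finf T, ∃ y ∈ Finf T, ∀ x ∈ Finf T, ‖z - y‖ ≤ ‖z - x‖
  mono : ∀ n m : ℕ, n ≤ m → Om T n ⊆ Om T m
  notin : ∀ n, ∀ z ∈ Om T n, z ∉ Finf T
  exh : ∀ z ∉ Finf T, ∃ n, z ∈ Om T n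
  stab : ∀ n, ∀ z ∈ Om T n, ∀ w, ‖T‖ ^ n * ‖w - z‖ < 1 → w ∈ Om T n
  omclosed : ∀ n, IsClosed (Om T n)
  omopen : ∀ n, IsOpen (Om T n)
  out : ∀ n, ∀ a ∉ Om T n,
    ‖T‖ ^ n < ‖a‖ ∨ ∃ x ∈ Finf T, ‖x‖ ≤ ‖T‖ ^ n ∧ ‖T‖ ^ n * ‖a - x‖ < 1
  lin : ∀ n, ∀ z ∈ Om T n, ∀ a ∈ Finf T, ∀ b ∈ Finf T,
    max ‖a‖ ‖b‖ ≤ ‖T‖ ^ (2 * n) * ‖a * z + b‖
  ppart : ∀ x ∈ Finf T, ∀ m : A, m ≠ 0 → ∃ b : A, ‖x - aeval T (m * b)‖ < ‖aeval T m‖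
  fin : ∀ R : ℝ, {b : A | ‖aeval T b‖ ≤ R}.Finite
  one_le : ∀ b : A, b ≠ 0 → 1 ≤ ‖aeval T b‖
  vert : ∀ z ∉ Finf T, ∃ y ∈ Finf T, ∃ j : ℤ, ∃ z' ∈ Om T 1, z = y + T ^ j * z'
  punct : ∀ n, ∀ z ∈ Om T n, ∀ s : Finset C, ∀ᶠ w in 𝓝[≠] z, w ∈ Om T n ∧ w ∉ s
  eqoff : ∀ (n : ℕ) (f g : C → C) (s : Finset C), ContinuousOn f (Om T n) →
    ContinuousOn g (Om T n) → (∀ z ∈ Om T n, z ∉ s → f z = g z) → ∀ z ∈ Om T n, f z = g z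

def OfFY : Prop := All fun _ _ _ _ T => FY T

/-! ## 2. Holomorphic functions and units -/

structure HOL (T : C) : Prop where
  congr : ∀ (S : Set C) (f g : C → C), HolOn S f → (∀ z ∈ S, f z = g z) → HolOn S g
  mono : ∀ (S S' : Set C) (f : C → C), S ⊆ S' → HolOn S' f → HolOn S f
  rat : ∀ (S : Set C) (P Q : C[X]), (∀ z ∈ S, Q.eval z ≠ 0) →
    HolOn S fun z => P.eval z / Q.eval z
  poly : ∀ (S : Set C) (P : C[X]), HolOn S fun z => P.eval z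
  const : ∀ (S : Set C) (c : C), HolOn S fun _ => c
  lin : ∀ (S : Set C) (a b : C), HolOn S fun z => a * z + b
  add : ∀ (S : Set C) (f g : C → C), HolOn S f → HolOn S g → HolOn S fun z => f z + g z
  sub : ∀ (S : Set C) (f g : C → C), HolOn S f → HolOn S g → HolOn S fun z => f z - g z
  bdd : ∀ (n : ℕ) (f : C → C), HolOn (Om T n) f → ∃ M : ℝ, 0 < M ∧ ∀ z ∈ Om T n, ‖f z‖ ≤ M
  mul : ∀ (n : ℕ) (f g : C → C), HolOn (Om T n) f → HolOn (Om T n) g →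
    HolOn (Om T n) fun z => f z * g z
  pow : ∀ (n k : ℕ) (f : C → C), HolOn (Om T n) f → HolOn (Om T n) fun z => f z ^ k
  sum : ∀ (ι : Type) (S : Set C) (s : Finset ι) (φ : ι → C → C), (∀ i ∈ s, HolOn S (φ i)) →
    HolOn S fun z => ∑ i ∈ s, φ i z
  prod : ∀ (ι : Type) (n : ℕ) (s : Finset ι) (φ : ι → C → C),
    (∀ i ∈ s, HolOn (Om T n) (φ i)) → HolOn (Om T n) fun z => ∏ i ∈ s, φ i z
  cont : ∀ (S : Set C) (f : C → C), HolOn S f → ContinuousOn f S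
  lim : ∀ (S : Set C) (f : C → C),
    (∀ ε : ℝ, 0 < ε → ∃ g, HolOn S g ∧ ∀ z ∈ S, ‖f z - g z‖ ≤ ε) → HolOn S f
  tsum : ∀ (ι : Type) (S : Set C) (φ : ι → C → C), (∀ i, HolOn S (φ i)) →
    (∀ ε : ℝ, 0 < ε → ∀ᶠ i in cofinite, ∀ z ∈ S, ‖φ i z‖ ≤ ε) → HolOn S fun z => ∑' i, φ i z
  comp : ∀ (h : MK T) (n m : ℕ) (f : C → C), (∀ z ∈ Om T n, mob h.1 z ∈ Om T m) →
    HolOn (Om T m) f → HolOn (Om T n) fun z => f (mob h.1 z)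
  sigom : ∀ σ : C ≃+* C, Iso T σ → Iso T σ.symm ∧ (∀ z, σ z ∈ Finf T ↔ z ∈ Finf T) ∧
    ∀ n z, σ z ∈ Om T n ↔ z ∈ Om T n
  sig : ∀ σ : C ≃+* C, Iso T σ → ∀ (n : ℕ) (f : C → C), HolOn (Om T n) f →
    HolOn (Om T n) fun z => σ (f (σ.symm z))

def OfHOL : Prop := All fun _ _ _ _ T => FY T → HOL T

structure UNI (T : C) : Prop where
  ofle : ∀ (n : ℕ) (f : C → C) (c : ℝ), 0 < c → HolOn (Om T n) f →
    (∀ z ∈ Om T n, c ≤ ‖f z‖) → UnitOn (Om T n) f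
  low : ∀ (n : ℕ) (u : C → C), UnitOn (Om T n) u → ∃ c : ℝ, 0 < c ∧ ∀ z ∈ Om T n, c ≤ ‖u z‖
  congr : ∀ (S : Set C) (u v : C → C), UnitOn S u → (∀ z ∈ S, u z = v z) → UnitOn S v
  mono : ∀ (S S' : Set C) (u : C → C), S ⊆ S' → UnitOn S' u → UnitOn S u
  const : ∀ (S : Set C) (c : C), c ≠ 0 → UnitOn S fun _ => c
  mul : ∀ (n : ℕ) (u v : C → C), UnitOn (Om T n) u → UnitOn (Om T n) v →
    UnitOn (Om T n) fun z => u z * v z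
  inv : ∀ (S : Set C) (u : C → C), UnitOn S u → UnitOn S fun z => (u z)⁻¹
  zpow : ∀ (n : ℕ) (k : ℤ) (u : C → C), UnitOn (Om T n) u → UnitOn (Om T n) fun z => u z ^ k
  prod : ∀ (ι : Type) (n : ℕ) (s : Finset ι) (φ : ι → C → C),
    (∀ i ∈ s, UnitOn (Om T n) (φ i)) → UnitOn (Om T n) fun z => ∏ i ∈ s, φ i z
  lin : ∀ (n : ℕ), ∀ a ∉ Om T n, UnitOn (Om T n) fun z => z - a
  den : ∀ (n : ℕ), ∀ c ∈ Finf T, ∀ d ∈ Finf T, c ≠ 0 ∨ d ≠ 0 → UnitOn (Om T n) fun z => c * z + d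
  comp : ∀ (h : MK T) (n m : ℕ) (u : C → C), (∀ z ∈ Om T n, mob h.1 z ∈ Om T m) →
    UnitOn (Om T m) u → UnitOn (Om T n) fun z => u (mob h.1 z)
  sig : ∀ σ : C ≃+* C, Iso T σ → ∀ (n : ℕ) (u : C → C), UnitOn (Om T n) u →
    UnitOn (Om T n) fun z => σ (u (σ.symm z))
  approx : ∀ (n : ℕ) (u : C → C), UnitOn (Om T n) u → ∀ ε : ℝ, 0 < ε → ∃ P Q : C[X],
    ∀ z ∈ Om T n, P.eval z ≠ 0 ∧ Q.eval z ≠ 0 ∧ ‖u z * Q.eval z / P.eval z - 1‖ ≤ ε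
  tprod : ∀ (ι : Type) (n : ℕ) (φ : ι → C → C), (∀ i, UnitOn (Om T n) (φ i)) →
    (∀ ε : ℝ, 0 < ε → ∀ᶠ i in cofinite, ∀ z ∈ Om T n, ‖φ i z - 1‖ ≤ ε) →
    UnitOn (Om T n) fun z => ∏' i, φ i z

def OfUNI : Prop := All fun _ _ _ _ T => FY T → HOL T → UNI T

/-! ## 3. Gauss norms, division, factorisation -/

/-- The Gauss norm of `P` on the disc of radius `r` about `y`. -/
def gs (y : C) (r : ℝ) (P : C[X]) : ℝ :=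
  ‖P.leadingCoeff‖ * (P.roots.map fun a => max ‖a - y‖ r).prod

structure MAX (T : C) : Prop where
  mul : ∀ (y : C) (r : ℝ) (P Q : C[X]), gs y r (P * Q) = gs y r P * gs y r Q
  pos : ∀ (y : C) (r : ℝ) (P : C[X]), 0 < r → P ≠ 0 → 0 < gs y r P
  le : ∀ (y : C) (r : ℝ) (P : C[X]) (z : C), ‖z - y‖ ≤ r → ‖P.eval z‖ ≤ gs y r P
  eq : ∀ (y : C) (r : ℝ) (P : C[X]) (z : C), (∀ a ∈ P.roots, ‖z - a‖ = max ‖a - y‖ r) →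
    ‖P.eval z‖ = gs y r P
  genv : ∀ y ∈ Finf T, ∀ ρ : C, ρ ≠ 0 → ∀ s : Finset C, ∃ z, ‖z - y‖ = ‖ρ‖ ∧ Far T ‖ρ‖ z ∧
    ∀ a ∈ s, ‖z - a‖ = max ‖a - y‖ ‖ρ‖
  maxp : ∀ (n : ℕ) (P Q : C[X]) (s : Finset C), (∀ z ∈ Om T n, Q.eval z ≠ 0) → ∀ z ∈ Om T n,
    ∃ z' ∈ Om T n, (∀ a ∈ s, 1 ≤ ‖T‖ ^ n * ‖z' - a‖) ∧
      ‖P.eval z / Q.eval z‖ ≤ ‖P.eval z' / Q.eval z'‖
  maxv : ∀ (n : ℕ) (P Q : C[X]), (∀ z ∈ Om T n, Q.eval z ≠ 0) → ∀ z ∈ Om T n,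
    ∃ y ∈ Finf T, ∃ j : ℤ, ‖y‖ ≤ ‖T‖ ^ n ∧ -(n : ℤ) ≤ j ∧ j ≤ n ∧
      ‖P.eval z / Q.eval z‖ ≤ gs y (‖T‖ ^ j) P / gs y (‖T‖ ^ j) Q

def OfMAX : Prop := All fun _ _ _ _ T => FY T → MAX T

def DIV (T : C) : Prop := ∀ (n : ℕ) (g : C → C), HolOn (Om T n) g → ∀ a ∈ Om T n,
  ∃ g1, HolOn (Om T n) g1 ∧ ∀ z ∈ Om T n, g z - g a = (z - a) * g1 z

def OfDIV : Prop := All fun _ _ _ _ T => FY T → HOL T → MAX T → DIV T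

open Classical in
/-- The roots of `P` in `Om T n`. -/
def rin (T : C) (n : ℕ) (P : C[X]) : Multiset C := P.roots.filter fun a => a ∈ Om T n

/-- Lower bound of the Gauss norms at all vertices of level `n + 1` and the number of zeros. -/
def LOWA (T : C) : Prop := ∀ (n : ℕ) (M μ : ℝ), 0 < μ → ∃ (Z : ℕ) (c : ℝ), 0 < c ∧
  ∀ P Q : C[X], (∀ z ∈ Om T (n + 2), Q.eval z ≠ 0) →
    (∀ z ∈ Om T (n + 2), ‖P.eval z / Q.eval z‖ ≤ M) →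
    (∃ z ∈ Om T n, μ ≤ ‖P.eval z / Q.eval z‖) → Multiset.card (rin T n P) ≤ Z ∧
      ∀ y ∈ Finf T, ∀ j : ℤ, ‖y‖ ≤ ‖T‖ ^ n → -(n : ℤ) ≤ j → j ≤ n →
        c ≤ gs y (‖T‖ ^ j) P / gs y (‖T‖ ^ j) Q

def OfLOWA : Prop := All fun _ _ _ _ T => FY T → MAX T → LOWA T

def LOW (T : C) : Prop := ∀ (n : ℕ) (M μ : ℝ), 0 < μ → ∃ (Z : ℕ) (c : ℝ), 0 < c ∧
  ∀ P Q : C[X], (∀ z ∈ Om T (n + 2), Q.eval z ≠ 0) →
    (∀ z ∈ Om T (n + 2), ‖P.eval z / Q.eval z‖ ≤ M) →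
    (∃ z ∈ Om T n, μ ≤ ‖P.eval z / Q.eval z‖) → Multiset.card (rin T n P) ≤ Z ∧
      ∀ z ∈ Om T n, c * ((rin T n P).map fun a => ‖z - a‖).prod ≤ ‖P.eval z / Q.eval z‖

def OfLOW : Prop := All fun _ _ _ _ T => FY T → MAX T → LOWA T → LOW T

/-- Factorisation of a holomorphic function. -/
def WF (T : C) : Prop := ∀ (n : ℕ) (g : C → C), HolOn (Om T (n + 2)) g →
  (∃ z ∈ Om T n, g z ≠ 0) → ∃ (l : Multiset C) (u : C → C), (∀ a ∈ l, a ∈ Om T n) ∧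
    UnitOn (Om T n) u ∧ ∀ z ∈ Om T n, g z = u z * (l.map fun a => z - a).prod

def OfWF : Prop := All fun _ _ _ _ T => FY T → HOL T → UNI T → DIV T → LOW T → WF T

/-- The size of a unit, and Liouville's theorem for units. -/
structure NF (T : C) : Prop where
  nf : ∀ (n : ℕ) (u : C → C), UnitOn (Om T n) u → ∃ (c : ℝ) (l l' : Multiset C), 0 < c ∧
    (∀ y ∈ l, y ∈ Finf T) ∧ (∀ y ∈ l', y ∈ Finf T) ∧ ∀ z ∈ Om T n,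
      ‖u z‖ = c * (l.map fun y => ‖z - y‖).prod / (l'.map fun y => ‖z - y‖).prod
  liou : ∀ (U : C → C) (z0 : C), (∀ n, UnitOn (Om T n) U) → Gen z0 →
    (∀ y ∈ Finf T, ∀ j : ℤ, ‖U (y + T ^ j * z0)‖ = ‖U z0‖) →
    ∀ z ∉ Finf T, ∀ w ∉ Finf T, U z = U w

def OfNF : Prop := All fun _ _ _ _ T => FY T → UNI T → NF T

/-! ## 4. Meromorphic functions -/

structure HD1 (T : C) [DecidableEq C] : Prop where
  restr : ∀ (n m : ℕ) (f : C → C) (e : C → ℤ), n ≤ m → Loc T m f e → Loc T n f e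
  congr : ∀ (n : ℕ) (f g : C → C) (e e' : C → ℤ) (s : Finset C), Loc T n f e →
    (∀ z ∈ Om T n, z ∉ s → f z = g z) → (∀ z ∈ Om T n, e z = e' z) → Loc T n g e'
  mul : ∀ (n : ℕ) (f g : C → C) (e e' : C → ℤ), Loc T n f e → Loc T n g e' →
    Loc T n (fun z => f z * g z) fun z => e z + e' z
  inv : ∀ (n : ℕ) (f : C → C) (e : C → ℤ), Loc T n f e →
    Loc T n (fun z => (f z)⁻¹) fun z => - e z
  zpow : ∀ (n : ℕ) (k : ℤ) (f : C → C) (e : C → ℤ), Loc T n f e →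
    Loc T n (fun z => f z ^ k) fun z => k * e z
  prod : ∀ (ι : Type) (n : ℕ) (s : Finset ι) (φ : ι → C → C) (e : ι → C → ℤ),
    (∀ i ∈ s, Loc T n (φ i) (e i)) → Loc T n (fun z => ∏ i ∈ s, φ i z) fun z => ∑ i ∈ s, e i z
  unit : ∀ (n : ℕ) (u : C → C), UnitOn (Om T n) u → Loc T n u fun _ => 0
  lin : ∀ (n : ℕ) (a : C), Loc T n (fun z => z - a) fun z => if z = a then 1 else 0
  mset : ∀ (n : ℕ) (l : Multiset C), Loc T n (fun z => (l.map fun a => z - a).prod)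
    fun z => (l.count z : ℤ)
  poly : ∀ (n : ℕ) (Q : C[X]), Q ≠ 0 → Loc T n (fun z => Q.eval z) fun z => (Q.roots.count z : ℤ)
  sig : ∀ σ : C ≃+* C, Iso T σ → ∀ (n : ℕ) (f : C → C) (e : C → ℤ), Loc T n f e →
    Loc T n (fun z => σ (f (σ.symm z))) fun z => e (σ.symm z)
  fin : ∀ (n : ℕ) (f : C → C) (e : C → ℤ), Loc T n f e → {z | z ∈ Om T n ∧ e z ≠ 0}.Finite

def OfHD1 : Prop := All fun _ _ _ _ T => FY T → HOL T → UNI T → HD1 T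

structure HD2 (T : C) : Prop where
  ord : ∀ (n : ℕ) (f : C → C) (e : C → ℤ), Loc T n f e → ∀ z ∈ Om T n, Ord f z (e z)
  uniq : ∀ (f : C → C) (z : C) (k k' : ℤ), Ord f z k → Ord f z k' → k = k'
  zero : ∀ (f : C → C) (z : C) (k : ℤ) (c₁ c₂ : ℝ), Ord f z k → 0 < c₁ →
    (∀ᶠ w in 𝓝[≠] z, c₁ ≤ ‖f w‖ ∧ ‖f w‖ ≤ c₂) → k = 0
  glue : ∀ f : C → C, (∀ n, ∃ e, Loc T n f e) → ∃ e, HasDiv T f e
  mer : ∀ (f : C → C), ∀ z0 ∉ Finf T, (∀ n, ∃ (g : C → C) (Q : C[X]), Q ≠ 0 ∧ HolOn (Om T n) g ∧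
    (z0 ∈ Om T n → g z0 ≠ 0) ∧ ∀ z ∈ Om T n, Q.eval z ≠ 0 → f z = g z / Q.eval z) →
    ∃ e, HasDiv T f e
  tprod : ∀ (ι : Type) (φ : ι → C → C) (e : ι → C → ℤ), (∀ i, HasDiv T (φ i) (e i)) →
    (∀ (n : ℕ) (ε : ℝ), 0 < ε → ∀ᶠ i in cofinite, HolOn (Om T n) (φ i) ∧
      ∀ z ∈ Om T n, ‖φ i z - 1‖ ≤ ε) →
    HasDiv T (fun z => ∏' i, φ i z) fun z => ∑ᶠ i, e i z

def OfHD2 : Prop := All fun _ _ _ _ T => FY T → HOL T → UNI T → WF T → HD1 T → HD2 T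

structure MOBN (T : C) [DecidableEq C] : Prop where
  maps : ∀ (h : MK T) (n R : ℕ), nrm h.1 ^ 2 ≤ ‖T‖ ^ R * ‖h.1.det‖ →
    ∀ z ∈ Om T n, mob h.1 z ∈ Om T (3 * n + R)
  maps' : ∀ (h : MK T) (n : ℕ), ∃ m, ∀ z ∈ Om T n, mob h.1 z ∈ Om T m
  ql : ∀ (g : MK T) (n : ℕ), g.1.det = 1 → ‖T‖ ^ (4 * n) < nrm g.1 →
    ∀ z ∈ Om T n, ∀ w ∈ Om T n, nrm g.1 ≤ ‖T‖ ^ (4 * n) * ‖QQ g.1 z w‖
  im : ∀ (g : MK T) (n : ℕ), g.1.det = 1 → ∀ w ∈ Om T n,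
    ∃ y ∈ Finf T, ‖mob g.1 w - y‖ * ‖den g.1 w‖ ^ 2 ≤ ‖T‖ ^ n
  one_le : ∀ g : M2 C, g.det = 1 → 1 ≤ nrm g
  tend : ∀ (g : MK T), ∀ z ∉ Finf T, Tendsto (mob g.1) (𝓝[≠] z) (𝓝[≠] (mob g.1 z))
  smul : ∀ g : GL (Fin 2) C, (∀ i j, g.1 i j ∈ Finf T) → ∀ z ∉ Finf T,
    g • (z : OnePoint C) = ((mob g.1 z : C) : OnePoint C)
  back : ∀ g : GL (Fin 2) C, (∀ i j, g.1 i j ∈ Finf T) → ∀ (x : OnePoint C), ∀ z ∉ Finf T,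
    g • x = (z : OnePoint C) → ∃ w ∉ Finf T, x = (w : OnePoint C)
  invmem : ∀ g : GL (Fin 2) C, (∀ i j, g.1 i j ∈ Finf T) → ∀ i j, (g⁻¹).1 i j ∈ Finf T
  sig : ∀ σ : C ≃+* C, Iso T σ → ∀ g : GL (Fin 2) C, (∀ i j, g.1 i j ∈ Finf T) →
    (∀ z, σ (mob g.1 z) = mob g.1 (σ z)) ∧ ∀ x : OnePoint C, (g • x).map σ = g • x.map σ

def OfMOBN : Prop := All fun _ _ _ _ T => FY T → MOBN T

structure HD3 (T : C) : Prop where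
  comp : ∀ (h : MK T) (f : C → C) (e : C → ℤ), HasDiv T f e →
    HasDiv T (fun z => f (mob h.1 z)) fun z => e (mob h.1 z)
  inv : ∀ (g : MK T) (f : C → C) (e : C → ℤ) (c : C), HasDiv T f e → c ≠ 0 →
    (∀ w ∉ Finf T, f (mob g.1 w) = c * f w) → ∀ z ∉ Finf T, e (mob g.1 z) = e z
  ell : ∀ (g : MK T) (f : C → C) (e : C → ℤ) (c : C), HasDiv T f e → g.1.det = 1 →
    (∀ w ∉ Finf T, f (mob g.1 w) = c * f w) → ∀ z ∉ Finf T, mob g.1 z = z →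
      c * den g.1 z ^ (2 * e z) = 1

def OfHD3 : Prop :=
  All fun _ _ _ _ T => FY T → HOL T → UNI T → HD1 T → HD2 T → MOBN T → HD3 T

/-! ## 5. The exponential function of a lattice -/

structure Latt (T : C) (Λ : Set C) : Prop where
  zero : (0 : C) ∈ Λ
  add : ∀ a ∈ Λ, ∀ b ∈ Λ, a + b ∈ Λ
  neg : ∀ a ∈ Λ, -a ∈ Λ
  mem : ∀ a ∈ Λ, a ∈ Finf T
  fin : ∀ R : ℝ, {b | b ∈ Λ ∧ ‖b‖ ≤ R}.Finite

structure EXP (T : C) : Prop where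
  ne : ∀ Λ, Latt T Λ → ∀ z ∉ Finf T, ex Λ z ≠ 0
  prod : ∀ Λ, Latt T Λ → ∀ z ∉ Finf T, ∀ z' ∉ Finf T,
    HasProd (fun b : Λ => ‖z - b.1‖ / ‖z' - b.1‖) (‖ex Λ z‖ / ‖ex Λ z'‖)
  shift : ∀ Λ, Latt T Λ → ∀ (r : ℝ) (z w : C), Far T r z → ‖w - z‖ < r → ‖ex Λ w‖ = ‖ex Λ z‖
  scale : ∀ (Λ : Set C) (t z : C), t ≠ 0 →
    ‖ex {b | ∃ a ∈ Λ, b = t * a} (t * z)‖ = ‖t‖ * ‖ex Λ z‖
  index : ∀ (Λ Λ' : Set C) (s : Finset C), Latt T Λ → Latt T Λ' → Λ ⊆ Λ' → (∀ x ∈ s, x ∈ Λ') →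
    (∀ b ∈ Λ', ∃! x, x ∈ s ∧ b - x ∈ Λ) → ∃ r c : ℝ, 0 < r ∧ 0 < c ∧
      ∀ z, Far T r z → ‖ex Λ' z‖ = c * ‖ex Λ z‖ ^ s.card
  sig : ∀ σ : C ≃+* C, Iso T σ → ∀ Λ, Latt T Λ → ∀ z, ‖ex Λ (σ z)‖ = ‖ex Λ z‖

def OfEXP : Prop := All fun _ _ _ _ T => FY T → EXP T

end Pool.Agent.MP_a88b1d_nt.P2
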