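import Pool.Agent.MP_a88b1d_nt.H93.Spec2

/-!
Specification of the intermediate statements for the divisor class version.  Part 2: discrete
groups, functions with multipliers, potentials on the tree, the final steps.
-/

open Polynomial Quaternion OnePoint Filter Topology

noncomputable section

namespace Pool.Agent.MP_a88b1d_nt.P2

open Pool.Agent.MP_a88b1d_nt.St2
open Pool.Agent.MP_a88b1d_nt.H42 (A M2 MK nrm dd st rG r0 vv QQ den Orth Good Psi IsTree TreeAPI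
  Proper PsiAPI GramOK pp qq Quat Gbar cls NormIs)

/-! ## 6. Abstract rows on trees and groups -/

section Tree
variable {V : Type} [Monoid V] {G : Type} [Group G]

/-- A potential whose differences are invariant and have finite support modulo the group. -/
structure Inv (d : V → V → ℕ) (ρ : G →* V) (l : V → ℤ) : Prop where
  congr : ∀ x y, d x y = 0 → l x = l y
  add : ∀ g x, l (ρ g * x) = l (ρ g) + l x
  fin : ∃ R : ℕ, ∀ x y, d x y = 1 → l x ≠ l y → ∃ g, d 1 (ρ g * x) ≤ R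

end Tree

/-- Subharmonic implies harmonic. -/
def GR1 : Prop := ∀ (V : Type) [Monoid V] (d : V → V → ℕ) (s : Fin 3 → V) (G : Type) [Group G]
  (ρ : G →* V) (l : V → ℤ), IsTree d s → Proper d ρ → Inv d ρ l →
  (∀ x, 3 * l x ≤ ∑ k, l (x * s k)) → ∀ x, ∑ k, l (x * s k) = 3 * l x

/-- Unfolding modulo 3. -/
def GR2 : Prop := ∀ (V : Type) [Monoid V] (d : V → V → ℕ) (s : Fin 3 → V) (G : Type) [Group G]
  (ρ : G →* V) (l : V → ℤ), IsTree d s → Proper d ρ →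
  (∀ g, (∀ x, d x (ρ g * x) = 0) → g = 1) → Inv d ρ l → (∀ x, ∑ k, l (x * s k) = 3 * l x) →
  ∀ μ, (∀ a, (3 : ℤ) ∣ Psi d ρ 1 (ρ a) 1 (ρ μ)) → (3 : ℤ) ∣ l (ρ μ)

/-- Linear growth of the pairing. -/
def GROW : Prop := ∀ (V : Type) [Monoid V] (d : V → V → ℕ) (s : Fin 3 → V) (G : Type) [Group G]
  (ρ : G →* V), IsTree d s → Proper d ρ →
  ∀ a, ∃ B : ℕ, ∀ b, Psi d ρ 1 (ρ b) 1 (ρ a) ≤ B * d 1 (ρ b)

/-- Maximum principle for integral harmonic functions. -/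
def MAXP : Prop := ∀ (V : Type) [Monoid V] (d : V → V → ℕ) (s : Fin 3 → V) (l : V → ℤ),
  IsTree d s → (∀ x y, d x y = 0 → l x = l y) → (∀ x, ∑ k, l (x * s k) = 3 * l x) →
  (∃ B, ∀ x, l x ≤ B) → ∀ x y, l x = l y

/-- Extension of characters of norm one. -/
def BAER : Prop := ∀ (K : Type) [NormedField K] [IsAlgClosed K] (G : Type) [Group G] (ι : Type)
  [Fintype ι] (H : ι → Type) [∀ i, Group (H i)] (D : ∀ i, G →* H i) (X : ∀ i, Set (H i →* Kˣ))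
  (lam : G →* Kˣ), (∀ g, ‖(lam g : K)‖ = 1) →
  (∀ g, (∀ i, ∀ χ ∈ X i, χ (D i g) = 1) → lam g = 1) →
  ∃ χ : ∀ i, H i →* Kˣ, (∀ i b, ‖(χ i b : K)‖ = 1) ∧
    (∀ i b, (∀ ψ ∈ X i, ψ b = 1) → χ i b = 1) ∧ ∀ g, lam g = ∏ i, χ i (D i g)

/-- A relation among 59 functionals that factor through `F_3 ^ 58`. -/
def LIN : Prop := ∀ (G : Type) [Mul G] (N : Set G) (F : G → Fin 58 → ZMod 3)
  (ν : Fin 59 → G → ℤ), N.Nonempty → (∀ a ∈ N, ∀ b ∈ N, a * b ∈ N) →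
  (∀ a ∈ N, ∀ b ∈ N, F (a * b) = F a + F b) →
  (∀ j, ∀ a ∈ N, ∀ b ∈ N, ν j (a * b) = ν j a + ν j b) →
  (∀ a ∈ N, F a = 0 → ∀ j, (3 : ℤ) ∣ ν j a) →
  ∃ c : Fin 59 → ℤ, (∃ j, ¬ (3 : ℤ) ∣ c j) ∧ ∀ a ∈ N, (3 : ℤ) ∣ ∑ j, c j * ν j a

/-! ## 7. Discrete groups -/

variable {C : Type} [NontriviallyNormedField C] [Algebra (ZMod 2) C] [DecidableEq C]

abbrev G0 (T : C) (m : A) : Subgroup (GL (Fin 2) C) := (Gam0 m).map (ev T)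

abbrev GA (T : C) : Subgroup (GL (Fin 2) C) := (ev T).range

structure Disc (T : C) (Γ : Subgroup (GL (Fin 2) C)) : Prop where
  mem : ∀ g ∈ Γ, ∀ i j, g.1 i j ∈ Finf T
  det : ∀ g ∈ Γ, g.1.det = 1
  fin : ∀ R : ℝ, {g : Γ | nrm g.1.1 ≤ R}.Finite

def toMK {T : C} {Γ : Subgroup (GL (Fin 2) C)} (h : Disc T Γ) : Γ →* MK T :=
  H42.lift T ((Units.coeHom _).comp Γ.subtype) fun g i j => h.mem g.1 g.2 i j

omit [Algebra (ZMod 2) C] [DecidableEq C] in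
theorem toMK_val {T : C} {Γ : Subgroup (GL (Fin 2) C)} (h : Disc T Γ) (g : Γ) :
    (toMK h g).1 = g.1.1 := rfl

/-- An invertible matrix with entries in `F_∞` as an element of `MK T`. -/
def glMK (T : C) (g : GL (Fin 2) C) (h : ∀ i j, g.1 i j ∈ Finf T) : MK T :=
  ⟨g.1, h, (Matrix.isUnits_det_units g).ne_zero⟩

structure Setup (T : C) (Γ : Subgroup (GL (Fin 2) C)) (K : Set (GL (Fin 2) C)) : Prop where
  disc : Disc T Γ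
  cusp : ∀ γ ∈ K, γ ∈ GA T
  le : K.Nonempty → Γ ≤ GA T
  stable : ∀ g ∈ Γ, ∀ γ ∈ K, g * γ ∈ K

/-- Cocompact action on the tree. -/
def TCoc {T : C} {Γ : Subgroup (GL (Fin 2) C)} (h : Disc T Γ) : Prop :=
  ∃ R : ℕ, ∀ x : MK T, ∃ g : Γ, dd T 1 (toMK h g * x) ≤ R

def Case (T : C) (Γ : Subgroup (GL (Fin 2) C)) (K : Set (GL (Fin 2) C)) : Prop :=
  (K = ∅ ∧ ∃ h : Disc T Γ, TCoc h) ∨ ∃ m : A, m ≠ 0 ∧ Γ = G0 T m ∧ K = GA T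

/-- The divisor of a point. -/
def pt (Γ : Subgroup (GL (Fin 2) C)) (x : OnePoint C) : OnePoint C → ℤ :=
  {t | ∃ g ∈ Γ, g • x = t}.indicator 1

def Lam (Γ : Subgroup (GL (Fin 2) C)) (γ : GL (Fin 2) C) : Set C :=
  {b | γ * Matrix.GeneralLinearGroup.upperRightHom b * γ⁻¹ ∈ Γ}

/-- The order function on the half-plane that belongs to a divisor. -/
def eD (Γ : Subgroup (GL (Fin 2) C)) (D : OnePoint C → ℤ) : C → ℤ :=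
  fun z => Nat.card (MulAction.stabilizer Γ (z : OnePoint C)) * D z

def Dv (T : C) (Γ : Subgroup (GL (Fin 2) C)) (K : Set (GL (Fin 2) C)) :
    AddSubgroup (OnePoint C → ℤ) :=
  AddSubgroup.closure {D | ∃ x ∈ Pts T K, D = pt Γ x}

omit [Algebra (ZMod 2) C] in
theorem div0_eq (T : C) (Γ : Subgroup (GL (Fin 2) C)) (K : Set (GL (Fin 2) C)) : Div0 T Γ K =
    AddSubgroup.closure {D | ∃ x ∈ Pts T K, ∃ y ∈ Pts T K, D = pt Γ x - pt Γ y} := rfl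

omit [Algebra (ZMod 2) C] in
theorem isDiv_iff (T : C) (Γ : Subgroup (GL (Fin 2) C)) (K : Set (GL (Fin 2) C)) (f : C → C)
    (D : OnePoint C → ℤ) : IsDiv T Γ K f D ↔ HasDiv T f (eD Γ D) ∧
      (∀ γ ∈ K, CuspOrd T (Lam Γ γ) (fun z => f (mob γ.1 z)) (D (γ • ∞))) ∧
        ∀ x ∉ Pts T K, D x = 0 :=
  ⟨fun h => ⟨h.1, h.2, h.3⟩, fun h => ⟨h.1, h.2.1, h.2.2⟩⟩

open Classical in
structure DISC (T : C) : Prop where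
  good : ∀ Γ (h : Disc T Γ), Good (toMK h)
  ofgood : ∀ (G : Type) [Group G] (ρ : G →* MK T) (Γ : Subgroup (GL (Fin 2) C)), Good ρ →
    (∀ g ∈ Γ, ∃ a, (ρ a).1 = g.1) → Disc T Γ
  evinj : Function.Injective (ev T)
  ga : Disc T (GA T)
  sub : ∀ Γ Γ', Γ ≤ Γ' → Disc T Γ' → Disc T Γ
  set0 : ∀ m, Setup T (G0 T m) (GA T)
  setD : ∀ Γ, Disc T Γ → Setup T Γ ∅
  case : ∀ Γ K, Case T Γ K → Setup T Γ K
  orbfin : ∀ Γ, Disc T Γ → ∀ w ∉ Finf T, ∀ n, {g : Γ | mob g.1.1 w ∈ Om T n}.Finite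
  stabfin : ∀ Γ, Disc T Γ → ∀ z ∉ Finf T, Finite (MulAction.stabilizer Γ (z : OnePoint C))
  free : ∀ Γ, Disc T Γ → ∃ w, Gen w ∧ ∀ g : Γ, mob g.1.1 w = w → g = 1
  base : ∀ Γ, Disc T Γ → ∀ x y : OnePoint C, ∃ z ∉ Finf T, pt Γ x z = 0 ∧ pt Γ y z = 0
  cnt : ∀ Γ, Disc T Γ → ∀ (x : OnePoint C), ∀ z ∉ Finf T,
    ∑ᶠ g : Γ, (if (z : OnePoint C) = g.1 • x then (1 : ℤ) else 0) = eD Γ (pt Γ x) z
  cardinv : ∀ (Γ : Subgroup (GL (Fin 2) C)) (x : OnePoint C), ∀ g ∈ Γ,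
    Nat.card (MulAction.stabilizer Γ (g • x)) = Nat.card (MulAction.stabilizer Γ x)
  ptinv : ∀ (Γ : Subgroup (GL (Fin 2) C)) (x y : OnePoint C), ∀ g ∈ Γ,
    pt Γ (g • x) = pt Γ x ∧ pt Γ x (g • y) = pt Γ x y
  ptsinv : ∀ Γ K, Setup T Γ K → ∀ x ∈ Pts T K, ∀ g ∈ Γ, g • x ∈ Pts T K
  notcusp : ∀ γ ∈ GA T, ∀ z ∉ Finf T, γ • (∞ : OnePoint C) ≠ (z : OnePoint C)
  latt : ∀ Γ, Disc T Γ → ∀ γ ∈ GA T, Latt T (Lam Γ γ)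
  tri : ∀ g ∈ GA T, g.1 1 0 = 0 → g = Matrix.GeneralLinearGroup.upperRightHom (g.1 0 1)
  lam0 : ∀ (m b : A), ∀ γ ∈ GA T, aeval T (m * b) ∈ Lam (G0 T m) γ

def OfDISC : Prop := All fun _ _ _ _ T => FY T → MOBN T → DISC T

structure RED (T : C) : Prop where
  vert : ∀ x : MK T, ∃ γ i, dd T x (rG T γ * vv T i) = 0
  idx : ∀ m : A, m ≠ 0 → ∃ s : Finset (GL (Fin 2) A), ∀ γ, ∃ g ∈ Gam0 m, ∃ γ' ∈ s, γ = g * γ'
  red : ∀ z ∉ Finf T, ∃ γ ∈ GA T, ∃ z' ∉ Finf T, z = mob γ.1 z' ∧ (Far T ‖T‖ z' ∨ z' ∈ Om T 6)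
  coc : ∀ Γ (h : Disc T Γ), TCoc h → ∃ N, ∀ z ∉ Finf T, ∃ g ∈ Γ, mob g.1 z ∈ Om T N
  faith : ∀ g : GL (Fin 2) A, (∀ x, dd T x (rG T g * x) = 0) → g = 1
  col : ∀ a c : A, a ≠ 0 ∨ c ≠ 0 → ∃ (γ : GL (Fin 2) A) (t : A), t ≠ 0 ∧ a = t * γ.1 0 0 ∧
    c = t * γ.1 1 0

def OfRED : Prop := All fun _ _ _ _ T => FY T → MOBN T → RED T

/-- Potentials of `Γ_0(m)` have differences of finite support. -/
def RAY (T : C) : Prop := ∀ (m : A) (l : MK T → ℤ), m ≠ 0 →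
  (∀ x y, dd T x y = 0 → l x = l y) →
  (∀ g ∈ Gam0 m, ∀ x, l (rG T g * x) = l (rG T g) + l x) →
  (∀ x, (∀ γ, dd T x (rG T γ) ≠ 0) → ∑ k, l (x * st T k) = 3 * l x) →
  (∀ γ, ∃ (B : ℤ) (i0 : ℕ), ∀ i, i0 ≤ i → |l (rG T γ * vv T i)| ≤ B) →
  ∃ R : ℕ, ∀ x y, dd T x y = 1 → l x ≠ l y → ∃ g ∈ Gam0 m, dd T 1 (rG T g * x) ≤ R

def OfRAY : Prop := All fun _ _ _ _ T => RED T → RAY T

/-! ## 8. Functions with multipliers -/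

structure MF (T : C) (Γ : Subgroup (GL (Fin 2) C)) (K : Set (GL (Fin 2) C)) (χ : Γ →* Cˣ)
    (f : C → C) (D : OnePoint C → ℤ) : Prop where
  div : IsDiv T Γ K f D
  aut : ∀ g : Γ, ∀ z ∉ Finf T, f (mob g.1.1 z) = χ g * f z

structure MFA (T : C) : Prop where
  one : ∀ Γ K, Setup T Γ K → MF T Γ K 1 (fun _ => 1) 0
  mul : ∀ Γ K χ χ' f f' D D', Setup T Γ K → MF T Γ K χ f D → MF T Γ K χ' f' D' →
    MF T Γ K (χ * χ') (fun z => f z * f' z) (D + D')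
  inv : ∀ Γ K χ f D, Setup T Γ K → MF T Γ K χ f D → MF T Γ K χ⁻¹ (fun z => (f z)⁻¹) (-D)
  zpow : ∀ Γ K χ f D (c : ℤ), Setup T Γ K → MF T Γ K χ f D →
    MF T Γ K (χ ^ c) (fun z => f z ^ c) (c • D)
  prod : ∀ (Γ : Subgroup (GL (Fin 2) C)) K (ι : Type) (s : Finset ι) (χ : ι → Γ →* Cˣ)
    (f : ι → C → C) (D : ι → OnePoint C → ℤ), Setup T Γ K → (∀ i ∈ s, MF T Γ K (χ i) (f i) (D i)) →
    MF T Γ K (∏ i ∈ s, χ i) (fun z => ∏ i ∈ s, f i z) (∑ i ∈ s, D i)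
  prin : ∀ Γ K D, Setup T Γ K → (D ∈ Prin T Γ K ↔ ∃ f, MF T Γ K 1 f D)
  stab : ∀ Γ K χ f D, Setup T Γ K → MF T Γ K χ f D → ∀ g : Γ, ∀ z ∉ Finf T,
    mob g.1.1 z = z → χ g = 1

def OfMFA : Prop :=
  All fun _ _ _ _ T => FY T → UNI T → HD1 T → HD3 T → MOBN T → EXP T → DISC T → MFA T

def Strict (T : C) (f : C → C) (e : C → ℤ) : Prop :=
  ∀ n, ∃ (s : Finset C) (u : C → C), UnitOn (Om T n) u ∧ (∀ a ∈ s, a ∈ Om T n ∧ e a ≠ 0) ∧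
    (∀ z ∈ Om T n, z ∉ s → e z = 0) ∧ ∀ z ∈ Om T n, f z = u z * ∏ a ∈ s, (z - a) ^ e a

structure NORM (T : C) : Prop where
  strict : ∀ Γ K χ f D, Setup T Γ K → MF T Γ K χ f D →
    ∃ f', MF T Γ K χ f' D ∧ Strict T f' (eD Γ D)
  unit : ∀ Γ K χ f, Setup T Γ K → MF T Γ K χ f 0 →
    ∃ U, MF T Γ K χ U 0 ∧ Strict T U (eD Γ 0) ∧ ∀ n, UnitOn (Om T n) U

def OfNORM : Prop := All fun _ _ _ _ T =>
  FY T → HOL T → UNI T → HD1 T → HD2 T → HD3 T → MOBN T → EXP T → DISC T → NORM T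

/-! ## 9. Theta functions -/

def LL (g : M2 C) (p : Fin 2 → C) (z : C) : C := z * g.mulVec p 1 - g.mulVec p 0

def phi (g : M2 C) (p : Fin 2 → C) (w z1 z : C) : C :=
  LL g p z * LL g ![w, 1] z1 / (LL g ![w, 1] z * LL g p z1)

def th (Γ : Subgroup (GL (Fin 2) C)) (p : Fin 2 → C) (w z1 z : C) : C :=
  ∏' g : Γ, phi g.1.1 p w z1 z

structure ThD (T : C) (Γ : Subgroup (GL (Fin 2) C)) (K : Set (GL (Fin 2) C)) (p : Fin 2 → C)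
    (x : OnePoint C) (w z1 : C) : Prop where
  setup : Setup T Γ K
  vec : (∃ z ∉ Finf T, p = ![z, 1] ∧ x = (z : OnePoint C)) ∨
    ∃ γ ∈ K, p = (fun i => γ.1 i 0) ∧ x = γ • ∞
  hw : w ∉ Finf T
  hz : z1 ∉ Finf T
  offx : pt Γ x z1 = 0
  offw : pt Γ w z1 = 0

/-- Convergence of the theta product. -/
def THT (T : C) : Prop := ∀ Γ K p x w z1, ThD T Γ K p x w z1 →
  (∀ g : Γ, LL g.1.1 p z1 ≠ 0 ∧ LL g.1.1 ![w, 1] z1 ≠ 0) ∧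
  ∀ (n : ℕ) (ε : ℝ), 0 < ε → ∀ᶠ g : Γ in cofinite,
    HolOn (Om T n) (phi g.1.1 p w z1) ∧ ∀ z ∈ Om T n, ‖phi g.1.1 p w z1 z - 1‖ ≤ ε

def OfTHT : Prop := All fun _ _ _ _ T => FY T → HOL T → MOBN T → DISC T → THT T

def THA (T : C) : Prop := ∀ Γ K p x w z1, ThD T Γ K p x w z1 →
  (∀ z ∉ Finf T, HasProd (fun g : Γ => phi g.1.1 p w z1 z) (th Γ p w z1 z)) ∧
  HasDiv T (th Γ p w z1) (eD Γ (pt Γ x - pt Γ w)) ∧
  (∀ h : Γ, ∀ z ∉ Finf T, th Γ p w z1 (mob h.1.1 z) = th Γ p w z1 (mob h.1.1 z1) * th Γ p w z1 z) ∧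
  ∀ h : Γ, th Γ p w z1 (mob h.1.1 z1) ≠ 0

def OfTHA : Prop :=
  All fun _ _ _ _ T => FY T → UNI T → HD1 T → HD2 T → MOBN T → DISC T → THT T → THA T

def THC (T : C) : Prop := ∀ Γ K p x w z1, ThD T Γ K p x w z1 → ∀ γ ∈ K,
  CuspOrd T (Lam Γ γ) (fun z => th Γ p w z1 (mob γ.1 z)) ((pt Γ x - pt Γ w) (γ • ∞))

def OfTHC : Prop :=
  All fun _ _ _ _ T => FY T → MOBN T → EXP T → DISC T → THT T → THA T → THC T

structure TH (T : C) : Prop where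
  div0 : ∀ Γ K, Setup T Γ K → ∀ D ∈ Div0 T Γ K, ∃ χ f, MF T Γ K χ f D
  per : ∀ Γ (h : Disc T Γ) (a : Γ), ∃ (c : Γ →* Cˣ) (u : C → C) (χ : Gbar Γ →* Cˣ),
    MF T Γ ∅ c u 0 ∧ (∀ b, c b = χ (cls b)) ∧ NormIs (toMK h) χ a

def OfTH : Prop := All fun _ _ _ _ T => MOBN T → DISC T → MFA T → THA T → THC T → TH T

/-! ## 10. Eisenstein and Poincare series -/

def EIS (T : C) : Prop := ∀ (H : Subgroup (GL (Fin 2) A)) (χ : H.map (ev T) →* Cˣ),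
  (∀ g, ‖(χ g : C)‖ = 1) → ∃ E : C → C, (∀ n, HolOn (Om T n) E) ∧
    (∀ g : H.map (ev T), ∀ z ∉ Finf T, E (mob g.1.1 z) = χ g * den g.1.1 z * E z) ∧
    ∀ γ ∈ GA T, ∀ z, Far T ‖T‖ z → ‖E (mob γ.1 z)‖ = ‖den γ.1 z‖

def OfEIS : Prop := All fun _ _ _ _ T => FY T → HOL T → DISC T → EIS T

def PS (T : C) : Prop := ∀ Γ, Disc T Γ → ∀ (χ : Γ →* Cˣ) (m : ℕ),
  (∀ g, ‖(χ g : C)‖ ≤ nrm g.1.1 ^ m) → ∃ (P : C → C) (e : C → ℤ), HasDiv T P e ∧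
    ∀ g : Γ, ∀ z ∉ Finf T, P (mob g.1.1 z) = χ g * den g.1.1 z ^ (m + 1) * P z

def OfPS : Prop := All fun _ _ _ _ T => FY T → HOL T → HD2 T → MOBN T → DISC T → PS T

def FINS (T : C) : Prop := ∀ (Γ : Subgroup (GL (Fin 2) C)) K (χ : Γ →* Cˣ) (f : C → C)
  (e : C → ℤ), Setup T Γ K →
  HasDiv T f e → (∀ g : Γ, ∀ z ∉ Finf T, f (mob g.1.1 z) = χ g * f z) →
  (∀ g : Γ, ∀ z ∉ Finf T, mob g.1.1 z = z → χ g = 1) →
  (∀ γ ∈ K, CuspOrd T (Lam Γ γ) (fun z => f (mob γ.1 z)) 0) →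
  (∃ N, ∀ z ∉ Finf T, e z ≠ 0 → ∃ g ∈ Γ, mob g.1 z ∈ Om T N) →
  ∃ D ∈ Dv T Γ K, MF T Γ K χ f D

def OfFINS : Prop := All fun _ _ _ _ T => FY T → HD1 T → HD3 T → MOBN T → DISC T → FINS T

/-! ## 11. Potentials -/

structure PROF (T : C) : Prop where
  indep : ∀ z z' : C, Gen z → Gen z' → ∀ y ∈ Finf T, ∀ x : MK T,
    ‖mob x.1 z - y‖ = ‖mob x.1 z' - y‖
  bd : ∀ z0 : C, Gen z0 → ∀ y ∈ Finf T, ∃ β : MK T → ℤ, (∀ x, ‖mob x.1 z0 - y‖ = ‖T‖ ^ β x) ∧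
    (∀ x x', dd T x x' = 0 → β x = β x') ∧ ∀ x, ∑ k, β (x * st T k) = 3 * β x
  int : ∀ z0 w0 : C, Orth z0 w0 → ∀ g : MK T, ∃ β : MK T → ℤ,
    (∀ x, ‖mob x.1 z0 - mob g.1 w0‖ = ‖T‖ ^ β x) ∧ (∀ x x', dd T x x' = 0 → β x = β x') ∧
      ∀ x, ∑ k, β (x * st T k) = 3 * β x + if dd T x g = 0 then 1 else 0

def OfPROF : Prop := All fun _ _ _ _ T => FY T → PROF T

structure Pot (T : C) (f : C → C) (z0 : C) (l : MK T → ℤ) : Prop where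
  ne : f z0 ≠ 0
  val : ∀ x : MK T, ‖f (mob x.1 z0)‖ = ‖f z0‖ * ‖T‖ ^ l x
  congr : ∀ x y, dd T x y = 0 → l x = l y

structure POT (T : C) : Prop where
  pot : ∀ (f : C → C) (e : C → ℤ) (z0 w0 : C) (S : Set (MK T)), Orth z0 w0 → Strict T f e →
    (∀ a ∉ Finf T, e a ≠ 0 → 0 < e a ∧ ∃ g ∈ S, a = mob g.1 w0) → ∃ l, Pot T f z0 l ∧
      (∀ x, 3 * l x ≤ ∑ k, l (x * st T k)) ∧ (e w0 ≠ 0 → 3 * l 1 < ∑ k, l (1 * st T k)) ∧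
      ∀ x, (∀ g ∈ S, dd T x g ≠ 0) → ∑ k, l (x * st T k) = 3 * l x
  indep : ∀ U : C → C, (∀ n, UnitOn (Om T n) U) → ∀ z z' : C, Gen z → Gen z' → ∀ x : MK T,
    ‖U (mob x.1 z)‖ = ‖U (mob x.1 z')‖

def OfPOT : Prop := All fun _ _ _ _ T => FY T → NF T → PROF T → POT T

def POTF (T : C) : Prop := ∀ Γ K χ f D (z0 w0 : C) (h : Disc T Γ), Case T Γ K → Orth z0 w0 →
  MF T Γ K χ f D → Strict T f (eD Γ D) → (∀ γ ∈ K, D (γ • ∞) = 0) →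
  (∀ a ∉ Finf T, eD Γ D a ≠ 0 → 0 < eD Γ D a ∧ ∃ g ∈ Γ, a = mob g.1 w0) →
  ∃ l, Pot T f z0 l ∧ Inv (dd T) (toMK h) l ∧ (∀ x, ∑ k, l (x * st T k) = 3 * l x) ∧
    eD Γ D w0 = 0 ∧ ∀ g : Γ, ‖(χ g : C)‖ = ‖T‖ ^ l (toMK h g)

def OfPOTF : Prop := All fun _ _ _ _ T => GR1 → FY T → DISC T → RAY T → POT T → POTF T

def DEG (T : C) : Prop :=
  ∀ Γ K χ f D, Case T Γ K → D ∈ Dv T Γ K → MF T Γ K χ f D → D ∈ Div0 T Γ K

def OfDEG : Prop :=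
  All fun _ _ _ _ T => MOBN T → DISC T → MFA T → NORM T → TH T → POTF T → DEG T

/-- Jacobi inversion. -/
structure JAC (T : C) : Prop where
  lev : ∀ m : A, m ≠ 0 → ∀ χ : G0 T m →* Cˣ, (∀ g, ‖(χ g : C)‖ = 1) →
    (∀ g : G0 T m, ∀ z ∉ Finf T, mob g.1.1 z = z → χ g = 1) →
    ∃ f, ∃ D ∈ Div0 T (G0 T m) (GA T), MF T (G0 T m) (GA T) χ f D
  coc : ∀ Γ (h : Disc T Γ), TCoc h → ∀ (χ : Γ →* Cˣ) (m : ℕ),
    (∀ g, ‖(χ g : C)‖ ≤ nrm g.1.1 ^ m) → (∀ g : Γ, ∀ z ∉ Finf T, mob g.1.1 z = z → χ g = 1) →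
    ∃ f, ∃ D ∈ Div0 T Γ ∅, MF T Γ ∅ χ f D

def OfJAC : Prop := All fun _ _ _ _ T => FY T → HD1 T → HD2 T → HD3 T → MOBN T → DISC T → RED T →
  EIS T → PS T → FINS T → DEG T → JAC T

/-- Multipliers of units. -/
structure UN (T : C) : Prop where
  sig : ∀ Γ K η U, Setup T Γ K → MF T Γ K η U 0 → ∀ σ : C ≃+* C, Iso T σ →
    ∀ g, σ (η g : C) = η g
  rig : ∀ Γ (h : Disc T Γ), TCoc h → ∀ η U, MF T Γ ∅ η U 0 → (∀ g, ‖(η g : C)‖ = 1) → η = 1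
  new : ∀ n : A, n ≠ 0 → ∀ η U, MF T (G0 T n) (GA T) η U 0 → ∃ ν : G0 T n → ℤ,
    (∀ g, ‖(η g : C)‖ = ‖T‖ ^ ν g) ∧ ∀ (μ : H42.Gam0 n) (g : G0 T n), g.1 = ev T μ.1 →
      (∀ a, (3 : ℤ) ∣ Psi (dd T) (r0 T n) 1 (r0 T n a) 1 (r0 T n μ)) → (3 : ℤ) ∣ ν g

def OfUN : Prop := All fun _ _ _ _ T => GR2 → MAXP → FY T → HOL T → UNI T → NF T → MOBN T →
  DISC T → RED T → NORM T → POT T → POTF T → UN T

/-! ## 12. Pullback and conjugation -/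

def pull (Γ Γ' : Subgroup (GL (Fin 2) C)) (δ : GL (Fin 2) C) (D : OnePoint C → ℤ) :
    OnePoint C → ℤ := fun x =>
  Γ.relIndex (Γ'.comap (MulAut.conj δ).toMonoidHom ⊓ MulAction.stabilizer (GL (Fin 2) C) x) *
    D (δ • x)

structure PullD (T : C) (n m d : A) (δ : GL (Fin 2) C) : Prop where
  ne : n ≠ 0
  dvd : m * d ∣ n
  val : δ.1 = !![aeval T d, 0; 0, 1]

theorem isPull_iff (T : C) (n : A) (hn : n ≠ 0) (D : OnePoint C → ℤ) : IsPull T n D ↔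
    ∃ m d δ D', PullD T n m d δ ∧ ¬ n ∣ m ∧ D' ∈ Div0 T (G0 T m) (GA T) ∧
      D = pull (G0 T n) (G0 T m) δ D' :=
  ⟨fun ⟨m, d, δ, D', h1, h2, h3, h4, h5⟩ => ⟨m, d, δ, D', ⟨hn, h1, h3⟩, h2, h4, funext h5⟩,
    fun ⟨m, d, δ, D', h1, h2, h3, h4⟩ => ⟨m, d, δ, D', h1.dvd, h2, h1.val, h3, congrFun h4⟩⟩

def PULLA (T : C) : Prop := ∀ n m d δ, PullD T n m d δ →
  (∀ g ∈ G0 T n, δ * g * δ⁻¹ ∈ G0 T m) ∧ ∀ f D, IsDiv T (G0 T m) (GA T) f D →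
    HasDiv T (fun z => f (mob δ.1 z)) (eD (G0 T n) (pull (G0 T n) (G0 T m) δ D)) ∧
      ∀ x ∉ Pts T (GA T), pull (G0 T n) (G0 T m) δ D x = 0

def OfPULLA : Prop :=
  All fun _ _ _ _ T => FY T → HD1 T → HD3 T → MOBN T → DISC T → RED T → PULLA T

def PULLC (T : C) : Prop := ∀ n m d δ, PullD T n m d δ → ∀ f D, IsDiv T (G0 T m) (GA T) f D →
  ∀ γ ∈ GA T, CuspOrd T (Lam (G0 T n) γ) (fun z => f (mob δ.1 (mob γ.1 z)))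
    (pull (G0 T n) (G0 T m) δ D (γ • ∞))

def OfPULLC : Prop :=
  All fun _ _ _ _ T => FY T → MOBN T → EXP T → DISC T → RED T → PULLA T → PULLC T

def act (σ : C ≃+* C) (D : OnePoint C → ℤ) : OnePoint C → ℤ := fun x => D (x.map σ.symm)

def chs {G : Type} [Group G] (σ : C ≃+* C) (χ : G →* Cˣ) : G →* Cˣ :=
  (Units.map σ.toRingHom.toMonoidHom).comp χ

omit [Algebra (ZMod 2) C] [DecidableEq C] in
theorem chs_val {G : Type} [Group G] (σ : C ≃+* C) (χ : G →* Cˣ) (g : G) :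
    (chs σ χ g : C) = σ (χ g : C) := rfl

structure GAL (T : C) : Prop where
  mf : ∀ Γ K χ f D (σ : C ≃+* C), Setup T Γ K → Iso T σ → MF T Γ K χ f D →
    MF T Γ K (chs σ χ) (fun z => σ (f (σ.symm z))) (act σ D)
  div0 : ∀ Γ K (σ : C ≃+* C), Setup T Γ K → Iso T σ → ∀ D ∈ Div0 T Γ K, act σ D ∈ Div0 T Γ K

def OfGAL : Prop := All fun _ _ _ _ T => HOL T → HD1 T → MOBN T → EXP T → DISC T → GAL T

/-! ## 13. Inertia -/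

def Dns (T : C) : Prop := Dense {x : C | IsAlgebraic (Finf T) x}

structure Inert (T : C) (σ : C ≃+* C) (k : ℕ) (ω : C) : Prop where
  iso : Iso T σ
  cube : ω ^ 3 = 1
  ne : ω ≠ 1
  act : ∀ (y : C) (n : ℤ), σ (y ^ 3 ^ k) = y ^ 3 ^ k → ‖y ^ 3 ^ k‖ = ‖T‖ ^ n → σ y = ω ^ n * y

/-- The field generated by `F_∞`, the constants and `S` is discretely valued; residues are
constants. -/
structure SIGV (T : C) : Prop where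
  val : ∀ S : Finset C, (∀ x ∈ S, IsAlgebraic (Finf T) x) → ∃ (M : Subfield C) (N : ℕ), 0 < N ∧
    Finf T ≤ M ∧ (∀ x ∈ S, x ∈ M) ∧ (∀ x : C, IsAlgebraic (ZMod 2) x → x ∈ M) ∧
    (∀ x ∈ M, IsAlgebraic (Finf T) x) ∧ ∀ y ∈ M, y ≠ 0 → ∃ j : ℤ, ‖y‖ ^ N = ‖T‖ ^ j
  res : Dns T → ∀ u : C, ‖u‖ = 1 → ∃ x : C, IsAlgebraic (ZMod 2) x ∧ ‖u - x‖ < 1

def OfSIGV : Prop := All fun _ _ _ _ T => FY T → SIGV T

/-- Conjugate elements are conjugate under an isometric automorphism. -/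
def SIGE (T : C) : Prop := Dns T → ∀ M : Subfield C, Finf T ≤ M →
  (∀ x ∈ M, IsAlgebraic (Finf T) x) →
  ∀ a b : C, IsAlgebraic (Finf T) a → aeval b (minpoly M a) = 0 →
    ∃ σ : C ≃+* C, (∀ x, ‖σ x‖ = ‖x‖) ∧ (∀ x ∈ M, σ x = x) ∧ σ a = b

def OfSIGE : Prop := All fun _ _ _ _ T => FY T → SIGE T

def SIG (T : C) : Prop := Dns T → ∀ S : Finset C, (∀ x ∈ S, IsAlgebraic (Finf T) x) →
  ∃ σ k ω, Inert T σ k ω ∧ ∀ x ∈ S, σ x = x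

def OfSIG : Prop := All fun _ _ _ _ T => FY T → SIGV T → SIGE T → SIG T

def EXC : Prop := ∃ (C : Type) (_ : NontriviallyNormedField C) (_ : IsUltrametricDist C)
  (_ : CompleteSpace C) (_ : IsAlgClosed C) (_ : Algebra (ZMod 2) C) (T : C), 1 < ‖T‖ ∧
    Dense {x : C | IsAlgebraic (Finf T) x}

/-! ## 14. The two sides -/

/-- The elements killed by all multipliers of lower level. -/
def NN (T : C) (n : A) : Set (G0 T n) := {μ | ∀ m d δ, PullD T n m d δ → ¬ n ∣ m →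
  ∀ χ f D, MF T (G0 T m) (GA T) χ f D → ∀ g : G0 T m, g.1 = δ * μ.1 * δ⁻¹ → χ g = 1}

structure OLD (T : C) : Prop where
  one : ∀ n, 1 ∈ NN T n
  mul : ∀ n, ∀ μ ∈ NN T n, ∀ ν ∈ NN T n, μ * ν ∈ NN T n
  kill : ∀ n : A, n ≠ 0 → ∀ E ∈ Prin T (G0 T n) (GA T) ⊔ Old T n,
    ∃ χ f, MF T (G0 T n) (GA T) χ f E ∧ ∀ μ ∈ NN T n, χ μ = 1
  inv : ∀ n : A, n ≠ 0 → ∀ lam : G0 T n →* Cˣ, (∀ g, ‖(lam g : C)‖ = 1) →
    (∀ μ ∈ NN T n, lam μ = 1) → ∃ f, ∃ E ∈ Old T n, MF T (G0 T n) (GA T) lam f E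
  new : ∀ (μ : H42.Gam0 (pp * qq)) (g : G0 T (pp * qq)), g.1 = ev T μ.1 → g ∈ NN T (pp * qq) →
    H42.New μ

def OfOLD : Prop := All fun _ _ _ _ T => BAER → FY T → MOBN T → DISC T → MFA T → TH T → JAC T →
  PULLA T → PULLC T → OLD T

def NEW (T : C) : Prop := ∀ σ k ω, Inert T σ k ω → ∀ D : Fin 59 → OnePoint C → ℤ,
  (∀ j, D j ∈ Div0 T (G0 T (pp * qq)) (GA T)) →
  (∀ j, 3 ^ k • D j ∈ Prin T (G0 T (pp * qq)) (GA T) ⊔ Old T (pp * qq)) →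
  ∃ c : Fin 59 → ℤ, (∃ j, ¬ (3 : ℤ) ∣ c j) ∧
    ∑ j, c j • (act σ (D j) - D j) ∈ Prin T (G0 T (pp * qq)) (GA T) ⊔ Old T (pp * qq)

def OfNEW : Prop := All fun _ _ _ _ T => LIN → H42.GN T → DISC T → MFA T → TH T → UN T → GAL T →
  OLD T → NEW T

def DSIDE (T : C) : Prop := ∀ Γ (h : Disc T Γ), TCoc h → GramOK (toMK h) →
  ∀ σ k ω, Inert T σ k ω → ∃ E : Fin 59 → OnePoint C → ℤ, (∀ j, E j ∈ Div0 T Γ ∅) ∧
    (∀ j, 3 ^ k • E j ∈ Prin T Γ ∅) ∧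
    ∀ c : Fin 59 → ℤ, ∑ j, c j • (act σ (E j) - E j) ∈ Prin T Γ ∅ → ∀ j, (3 : ℤ) ∣ c j

def OfDSIDE : Prop := All fun _ _ _ _ T => GROW → MOBN T → DISC T → MFA T → TH T → JAC T → UN T →
  GAL T → DSIDE T

def TRANSP (T : C) : Prop := ∀ ι : Quat A →+* M2 C, Emb T ι →
  ∃ h : Disc T (Units.map ι.toMonoidHom).range, TCoc h ∧ GramOK (toMK h)

def OfTRANSP : Prop := All fun _ _ _ _ T => H42.EMB T → H42.SN T → H42.TRANS T → H42.DG59 T →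
  H42.GD T → DISC T → TRANSP T

/-- Divisors of functions with multipliers are divisors of degree zero. -/
def SUB (T : C) : Prop := ∀ Γ K χ f D, Case T Γ K → MF T Γ K χ f D → D ∈ Div0 T Γ K

def OfSUB : Prop := All fun _ _ _ _ T => FY T → HD1 T → HD2 T → HD3 T → MOBN T → EXP T → DISC T →
  RED T → DEG T → SUB T

def OfFINAL : Prop := All fun _ _ _ _ T => H42.EMB T → DISC T → GAL T → SIG T → NEW T → DSIDE T →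
  TRANSP T → MFA T → OLD T → SUB T → Dns T → KernelFails T (pp * qq) (Quat A)

end Pool.Agent.MP_a88b1d_nt.P2
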